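import Pool.Agent.H56.GB.D9a

/-!
# Module D9: the dichotomy for radius 9 (end)
-/

set_option autoImplicit false

open Finset Polynomial
open scoped Classical Nat

namespace Pool.Agent.H56.GB

open Pool.Agent.H23.GW Pool.Agent.H23.GA Pool.Agent.H23.GB

noncomputable section

theorem bound1 (M : ℝ) (hM : 5 ≤ M) : ∃ C : ℝ, 0 < C ∧ ∀ a b y3 y4 y5 y6 y7 y8 y9 e : ℝ,
    |a| ≤ M → |b| ≤ M → |y3| ≤ 5 → |y4| ≤ 5 → |y5| ≤ 5 → |y6| ≤ 5 → |y7| ≤ 5 → |y8| ≤ 5 →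
    |y9| ≤ 5 → 0 ≤ e → e ≤ 1 → |R1 a b y3 y4 y5 y6 y7 y8 y9 e| ≤ C := by
  let f : (Fin 10 → ℝ) → ℝ := fun v => R1 (v 0) (v 1) (v 2) (v 3) (v 4) (v 5) (v 6) (v 7) (v 8) (v 9)
  have hf : Continuous f := by
    simp only [f, R1]
    fun_prop
  obtain ⟨C, hC⟩ := (isCompact_closedBall (0 : Fin 10 → ℝ) M).exists_bound_of_continuousOn
    hf.continuousOn
  refine ⟨max C 1, lt_of_lt_of_le one_pos (le_max_right _ _), ?_⟩
  intro a b y3 y4 y5 y6 y7 y8 y9 e ha hb h3 h4 h5 h6 h7 h8 h9 he0 he1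
  have h := hC ![a, b, y3, y4, y5, y6, y7, y8, y9, e] (by
    rw [mem_closedBall_zero_iff, pi_norm_le_iff_of_nonneg (by linarith)]
    have he : |e| ≤ M := by rw [abs_of_nonneg he0]; linarith
    intro i
    rw [Real.norm_eq_abs]
    fin_cases i <;> simp <;> linarith)
  exact (show |R1 a b y3 y4 y5 y6 y7 y8 y9 e| ≤ C from h).trans (le_max_left _ _)

theorem bound2 (M : ℝ) (hM : 5 ≤ M) : ∃ C : ℝ, 0 < C ∧ ∀ a b y3 y4 y5 y6 y7 y8 e : ℝ,
    |a| ≤ M → |b| ≤ M → |y3| ≤ 5 → |y4| ≤ 5 → |y5| ≤ 5 → |y6| ≤ 5 → |y7| ≤ 5 → |y8| ≤ 5 →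
    0 ≤ e → e ≤ 1 → |R2 a b y3 y4 y5 y6 y7 y8 e| ≤ C := by
  let f : (Fin 9 → ℝ) → ℝ := fun v => R2 (v 0) (v 1) (v 2) (v 3) (v 4) (v 5) (v 6) (v 7) (v 8)
  have hf : Continuous f := by
    simp only [f, R2]
    fun_prop
  obtain ⟨C, hC⟩ := (isCompact_closedBall (0 : Fin 9 → ℝ) M).exists_bound_of_continuousOn
    hf.continuousOn
  refine ⟨max C 1, lt_of_lt_of_le one_pos (le_max_right _ _), ?_⟩
  intro a b y3 y4 y5 y6 y7 y8 e ha hb h3 h4 h5 h6 h7 h8 he0 he1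
  have h := hC ![a, b, y3, y4, y5, y6, y7, y8, e] (by
    rw [mem_closedBall_zero_iff, pi_norm_le_iff_of_nonneg (by linarith)]
    have he : |e| ≤ M := by rw [abs_of_nonneg he0]; linarith
    intro i
    rw [Real.norm_eq_abs]
    fin_cases i <;> simp <;> linarith)
  exact (show |R2 a b y3 y4 y5 y6 y7 y8 e| ≤ C from h).trans (le_max_left _ _)

theorem boundT (L m w2 w3 w4 w5 w6 w7 w9 : ℝ) (hL : 2 ≤ L) (hm : 1 ≤ m) (h2 : |w2| ≤ L * m)
    (h3 : |w3| ≤ 3 * m) (h4 : |w4| ≤ 5 * m) (h6 : |w6| ≤ 5 * m)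
    (h7 : |w7| ≤ 3 * m) (h9 : |w9| ≤ 3 * m) :
    |T9 w2 w3 w4 w5 w6 w7 w9| ≤ L ^ 3 * (m ^ 3 * |w3| + m ^ 2 * |w5| + 6 * m ^ 2) := by
  have a2 := abs_nonneg w2
  have a3 := abs_nonneg w3
  have a4 := abs_nonneg w4
  have a5 := abs_nonneg w5
  have a6 := abs_nonneg w6
  have a7 := abs_nonneg w7
  have hm0 : 0 ≤ m := by linarith
  have hL0 : 0 ≤ L := by linarith
  have hLm : 0 ≤ L * m := mul_nonneg hL0 hm0
  have hm2 : m ≤ m ^ 2 := by nlinarith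
  have hm3 : m ^ 2 ≤ m ^ 3 := by nlinarith [sq_nonneg m]
  have hm13 : m ≤ m ^ 3 := hm2.trans hm3
  have hL3 : 8 ≤ L ^ 3 := by nlinarith [sq_nonneg L, mul_nonneg hL0 hL0]
  have hL13 : 4 * L ≤ L ^ 3 := by nlinarith [sq_nonneg L, mul_nonneg hL0 hL0]
  have hL23 : 2 * L ^ 2 ≤ L ^ 3 := by nlinarith [sq_nonneg L]
  -- the terms
  have t9 : |w9 / 9| ≤ L ^ 3 * m ^ 2 := by
    rw [abs_div, abs_of_pos (by norm_num : (0 : ℝ) < 9)]
    have : |w9| / 9 ≤ m ^ 2 := by linarith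
    have h8 : m ^ 2 ≤ L ^ 3 * m ^ 2 := by nlinarith [sq_nonneg m]
    linarith
  have t7 : |w2 * w7 / 14| ≤ L ^ 3 * m ^ 2 := by
    rw [abs_div, abs_mul, abs_of_pos (by norm_num : (0 : ℝ) < 14)]
    have h8 : |w2| * |w7| ≤ (L * m) * (3 * m) := mul_le_mul h2 h7 a7 hLm
    have h10 : L * m ^ 2 ≤ L ^ 3 * m ^ 2 := mul_le_mul_of_nonneg_right (by linarith) (sq_nonneg m)
    have h11 : 0 ≤ L * m ^ 2 := mul_nonneg hL0 (sq_nonneg m)
    rw [div_le_iff₀ (by norm_num)]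
    nlinarith
  have t36 : |w3 * w6 / 18| ≤ 1 / 4 * (L ^ 3 * (m ^ 3 * |w3|)) := by
    rw [abs_div, abs_mul, abs_of_pos (by norm_num : (0 : ℝ) < 18), div_le_iff₀ (by norm_num)]
    have h8 : |w3| * |w6| ≤ |w3| * (5 * m) := mul_le_mul_of_nonneg_left h6 a3
    have h10 : |w3| * m ≤ |w3| * m ^ 3 := mul_le_mul_of_nonneg_left hm13 a3
    have h11 : 8 * (m ^ 3 * |w3|) ≤ L ^ 3 * (m ^ 3 * |w3|) :=
      mul_le_mul_of_nonneg_right hL3 (mul_nonneg (pow_nonneg hm0 3) a3)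
    nlinarith
  have t234 : |w2 * w3 * w4 / 24| ≤ 1 / 4 * (L ^ 3 * (m ^ 3 * |w3|)) := by
    rw [abs_div, abs_mul, abs_mul, abs_of_pos (by norm_num : (0 : ℝ) < 24),
      div_le_iff₀ (by norm_num)]
    have h8 : |w2| * |w4| ≤ (L * m) * (5 * m) := mul_le_mul h2 h4 a4 hLm
    have h10 : |w2| * |w4| * |w3| ≤ (L * m) * (5 * m) * |w3| := mul_le_mul_of_nonneg_right h8 a3
    have h12 : L * (m ^ 2 * |w3|) ≤ L * (m ^ 3 * |w3|) :=
      mul_le_mul_of_nonneg_left (mul_le_mul_of_nonneg_right hm3 a3) hL0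
    have h11 : 4 * L * (m ^ 3 * |w3|) ≤ L ^ 3 * (m ^ 3 * |w3|) :=
      mul_le_mul_of_nonneg_right hL13 (mul_nonneg (pow_nonneg hm0 3) a3)
    have h13 : 0 ≤ L * (m ^ 3 * |w3|) := mul_nonneg hL0 (mul_nonneg (pow_nonneg hm0 3) a3)
    nlinarith
  have t333 : |w3 ^ 3 / 162| ≤ 1 / 4 * (L ^ 3 * (m ^ 3 * |w3|)) := by
    rw [abs_div, abs_pow, abs_of_pos (by norm_num : (0 : ℝ) < 162), div_le_iff₀ (by norm_num)]
    have h8 : |w3| * |w3| ≤ (3 * m) * (3 * m) := mul_le_mul h3 h3 a3 (by linarith)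
    have h10 : |w3| * |w3| * |w3| ≤ (3 * m) * (3 * m) * |w3| := mul_le_mul_of_nonneg_right h8 a3
    have h12 : m ^ 2 * |w3| ≤ m ^ 3 * |w3| := mul_le_mul_of_nonneg_right hm3 a3
    have h11 : 8 * (m ^ 3 * |w3|) ≤ L ^ 3 * (m ^ 3 * |w3|) :=
      mul_le_mul_of_nonneg_right hL3 (mul_nonneg (pow_nonneg hm0 3) a3)
    nlinarith
  have t2223 : |w2 ^ 3 * w3 / 144| ≤ 1 / 4 * (L ^ 3 * (m ^ 3 * |w3|)) := by
    rw [abs_div, abs_mul, abs_pow, abs_of_pos (by norm_num : (0 : ℝ) < 144),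
      div_le_iff₀ (by norm_num)]
    have h8 : |w2| ^ 3 ≤ (L * m) ^ 3 := pow_le_pow_left₀ a2 h2 3
    have h10 : |w2| ^ 3 * |w3| ≤ (L * m) ^ 3 * |w3| := mul_le_mul_of_nonneg_right h8 a3
    have h11 : (L * m) ^ 3 * |w3| = L ^ 3 * (m ^ 3 * |w3|) := by ring
    have h13 : 0 ≤ L ^ 3 * (m ^ 3 * |w3|) :=
      mul_nonneg (pow_nonneg hL0 3) (mul_nonneg (pow_nonneg hm0 3) a3)
    linarith
  have t45 : |w4 * w5 / 20| ≤ 1 / 2 * (L ^ 3 * (m ^ 2 * |w5|)) := by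
    rw [abs_div, abs_mul, abs_of_pos (by norm_num : (0 : ℝ) < 20), div_le_iff₀ (by norm_num)]
    have h8 : |w4| * |w5| ≤ (5 * m) * |w5| := mul_le_mul_of_nonneg_right h4 a5
    have h10 : m * |w5| ≤ m ^ 2 * |w5| := mul_le_mul_of_nonneg_right hm2 a5
    have h11 : 8 * (m ^ 2 * |w5|) ≤ L ^ 3 * (m ^ 2 * |w5|) :=
      mul_le_mul_of_nonneg_right hL3 (mul_nonneg (pow_nonneg hm0 2) a5)
    nlinarith
  have t225 : |w2 ^ 2 * w5 / 40| ≤ 1 / 2 * (L ^ 3 * (m ^ 2 * |w5|)) := by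
    rw [abs_div, abs_mul, abs_pow, abs_of_pos (by norm_num : (0 : ℝ) < 40),
      div_le_iff₀ (by norm_num)]
    have h8 : |w2| ^ 2 ≤ (L * m) ^ 2 := pow_le_pow_left₀ a2 h2 2
    have h10 : |w2| ^ 2 * |w5| ≤ (L * m) ^ 2 * |w5| := mul_le_mul_of_nonneg_right h8 a5
    have h11 : 2 * L ^ 2 * (m ^ 2 * |w5|) ≤ L ^ 3 * (m ^ 2 * |w5|) :=
      mul_le_mul_of_nonneg_right hL23 (mul_nonneg (pow_nonneg hm0 2) a5)
    have h13 : (L * m) ^ 2 * |w5| = L ^ 2 * (m ^ 2 * |w5|) := by ring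
    have h14 : 0 ≤ L ^ 2 * (m ^ 2 * |w5|) :=
      mul_nonneg (pow_nonneg hL0 2) (mul_nonneg (pow_nonneg hm0 2) a5)
    nlinarith
  have hsum : T9 w2 w3 w4 w5 w6 w7 w9 = w9 / 9 + w2 * w7 / 14 + w3 * w6 / 18 + w2 * w3 * w4 / 24 +
      w3 ^ 3 / 162 + w2 ^ 3 * w3 / 144 + w4 * w5 / 20 + w2 ^ 2 * w5 / 40 := by
    simp only [T9]
    ring
  rw [hsum]
  have A1 := abs_add_le (w9 / 9 + w2 * w7 / 14 + w3 * w6 / 18 + w2 * w3 * w4 / 24 +
      w3 ^ 3 / 162 + w2 ^ 3 * w3 / 144 + w4 * w5 / 20) (w2 ^ 2 * w5 / 40)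
  have A2 := abs_add_le (w9 / 9 + w2 * w7 / 14 + w3 * w6 / 18 + w2 * w3 * w4 / 24 +
      w3 ^ 3 / 162 + w2 ^ 3 * w3 / 144) (w4 * w5 / 20)
  have A3 := abs_add_le (w9 / 9 + w2 * w7 / 14 + w3 * w6 / 18 + w2 * w3 * w4 / 24 +
      w3 ^ 3 / 162) (w2 ^ 3 * w3 / 144)
  have A4 := abs_add_le (w9 / 9 + w2 * w7 / 14 + w3 * w6 / 18 + w2 * w3 * w4 / 24) (w3 ^ 3 / 162)
  have A5 := abs_add_le (w9 / 9 + w2 * w7 / 14 + w3 * w6 / 18) (w2 * w3 * w4 / 24)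
  have A6 := abs_add_le (w9 / 9 + w2 * w7 / 14) (w3 * w6 / 18)
  have A7 := abs_add_le (w9 / 9) (w2 * w7 / 14)
  have h20 : 0 ≤ L ^ 3 * m ^ 2 := mul_nonneg (pow_nonneg hL0 3) (sq_nonneg m)
  have e1 : L ^ 3 * (m ^ 3 * |w3| + m ^ 2 * |w5| + 6 * m ^ 2) = L ^ 3 * (m ^ 3 * |w3|) +
      L ^ 3 * (m ^ 2 * |w5|) + 6 * (L ^ 3 * m ^ 2) := by ring
  rw [e1]
  linarith

theorem pz (z : ℝ) (_ : 0 ≤ z) (h2 : z < 2) :
    448 ≤ z ^ 4 - 72 * z ^ 3 + 1512 * z ^ 2 - 10080 * z + 15120 := by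
  have h5 : z ^ 4 - 72 * z ^ 3 + 1512 * z ^ 2 - 10080 * z + 15120 - 448 =
      (2 - z) * (7336 - 1372 * z + 70 * z ^ 2 - z ^ 3) := by ring
  have h7 : z ^ 3 ≤ 2 * z ^ 2 := by
    have : z ^ 3 = z * z ^ 2 := by ring
    rw [this]
    exact mul_le_mul_of_nonneg_right h2.le (sq_nonneg z)
  have h6 : 0 ≤ 7336 - 1372 * z + 70 * z ^ 2 - z ^ 3 := by
    have := sq_nonneg z
    linarith
  have h8 := mul_nonneg (by linarith : (0 : ℝ) ≤ 2 - z) h6
  linarith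

theorem fin_ineq (L A B D : ℝ) (hL : 0 ≤ L ^ 3) (hA : 0 ≤ A) (hB : 0 ≤ B) :
    48 * L ^ 3 * (A + B + 6 * D) ≤ 288 * L ^ 3 * (A + B + D) := by
  have h1 := mul_nonneg hL hA
  have h2 := mul_nonneg hL hB
  have e1 : 48 * L ^ 3 * (A + B + 6 * D) = 48 * (L ^ 3 * A) + 48 * (L ^ 3 * B) +
    288 * (L ^ 3 * D) := by ring
  have e2 : 288 * L ^ 3 * (A + B + D) = 288 * (L ^ 3 * A) + 288 * (L ^ 3 * B) +
    288 * (L ^ 3 * D) := by ring
  rw [e1, e2]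
  linarith

theorem d9 : T_D9 := by
  intro K₀ hK₀
  obtain ⟨C1, hC1, hR1⟩ := bound1 (K₀ + 5) (by linarith)
  obtain ⟨C2, hC2, hR2⟩ := bound2 (K₀ + 5 + 810 * C1) (by linarith)
  obtain ⟨n0, hn0⟩ := exists_nat_ge ((48 * C2) ^ 2)
  set L := K₀ + 2 with hL
  have hL3 : 0 < L ^ 3 := by positivity
  refine ⟨24 * C1 + 288 * L ^ 3, n0 + 1, by positivity, ?_⟩
  intro m hm u hu1 hu2 huk hBP
  have hm' : ((n0 : ℝ) + 1) ≤ m := by exact_mod_cast hm
  have hn00 : (0 : ℝ) ≤ n0 := Nat.cast_nonneg n0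
  have hm1 : 1 ≤ m := by linarith
  have hm0 : 0 < m := by linarith
  set r := √m with hr
  have hr1 : 1 ≤ r := Real.one_le_sqrt.2 hm1
  have hr0 : 0 < r := by linarith
  have hrr : r ^ 2 = m := Real.sq_sqrt hm0.le
  have hrC : 48 * C2 ≤ r := by
    apply Real.le_sqrt_of_sq_le
    linarith
  set e := r⁻¹ with he
  have he0 : 0 < e := inv_pos.2 hr0
  have he1 : e ≤ 1 := inv_le_one_of_one_le₀ hr1
  have hre : r * e = 1 := mul_inv_cancel₀ hr0.ne'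
  have heC : 48 * C2 * e ≤ 1 := by
    rw [← hre]
    exact mul_le_mul_of_nonneg_right hrC he0.le
  -- the corrected power sums
  have hP : P9 (wk u m 1) (wk u m 2) (wk u m 3) (wk u m 4) (wk u m 5) (wk u m 6) (wk u m 7)
      (wk u m 8) (wk u m 9) = 0 := by
    rw [← rec9 (fun n => (BP u n).eval m) (wk u m) (by simp [BP]) (fun n => bp_rec u m n)]
    exact hBP
  set x1 := u 1 * e with hx1
  set x2 := u 2 * e with hx2
  have hx1b : |x1| ≤ K₀ := by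
    rw [hx1, abs_mul, abs_of_pos he0]
    calc |u 1| * e ≤ K₀ * r * e := mul_le_mul_of_nonneg_right hu1 he0.le
      _ = K₀ := by rw [mul_assoc, hre, mul_one]
  have hx2b : |x2| ≤ K₀ := by
    rw [hx2, abs_mul, abs_of_pos he0]
    calc |u 2| * e ≤ K₀ * r * e := mul_le_mul_of_nonneg_right hu2 he0.le
      _ = K₀ := by rw [mul_assoc, hre, mul_one]
  have hwb : ∀ k : ℕ, 3 ≤ k → k ≤ 9 → |wk u m k| ≤ 5 * m := by
    intro k h3 h9
    rw [wk]
    have h1 := huk k h3 h9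
    split_ifs
    · have h2 := abs_sub (u k) (2 * m)
      rw [abs_of_pos (by linarith : 0 < 2 * m)] at h2
      linarith
    · rw [sub_zero]
      linarith
  let y : ℕ → ℝ := fun k => wk u m k * e ^ 2
  have hyb : ∀ k : ℕ, 3 ≤ k → k ≤ 9 → |y k| ≤ 5 := by
    intro k h3 h9
    have h1 := hwb k h3 h9
    change |wk u m k * e ^ 2| ≤ 5
    rw [abs_mul, abs_of_pos (by positivity : 0 < e ^ 2)]
    calc |wk u m k| * e ^ 2 ≤ 5 * m * e ^ 2 := mul_le_mul_of_nonneg_right h1 (by positivity)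
      _ = 5 * (r * e) ^ 2 := by rw [← hrr]; ring
      _ = 5 := by rw [hre]; norm_num
  have hre' : ∀ n : ℕ, r ^ n * e ^ n = 1 := fun n => by rw [← mul_pow, hre, one_pow]
  have w1 : wk u m 1 = r * x1 := by
    rw [wk, if_neg (by decide), hx1, sub_zero]
    calc u 1 = u 1 * (r * e) := by rw [hre, mul_one]
      _ = _ := by ring
  have w2 : wk u m 2 = r ^ 2 * (x2 * e - 2) := by
    rw [wk, if_pos (by decide), hx2]
    calc u 2 - 2 * m = u 2 * (r ^ 2 * e ^ 2) - 2 * r ^ 2 := by rw [hre', mul_one, hrr]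
      _ = _ := by ring
  have wkk : ∀ k n : ℕ, k = n + 2 → wk u m k = r ^ k * (y k * e ^ n) := by
    intro k n hkn
    change wk u m k = r ^ k * (wk u m k * e ^ 2 * e ^ n)
    calc wk u m k = wk u m k * (r ^ k * e ^ k) := by rw [hre', mul_one]
      _ = _ := by rw [hkn]; ring
  have w3 : wk u m 3 = r ^ 3 * (y 3 * e) := by
    have := wkk 3 1 rfl
    rwa [pow_one] at this
  have w4 := wkk 4 2 rfl
  have w5 := wkk 5 3 rfl
  have w6 := wkk 6 4 rfl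
  have w7 := wkk 7 5 rfl
  have w8 := wkk 8 6 rfl
  have w9 := wkk 9 7 rfl
  have hP' : P9 x1 (x2 * e - 2) (y 3 * e) (y 4 * e ^ 2) (y 5 * e ^ 3) (y 6 * e ^ 4)
      (y 7 * e ^ 5) (y 8 * e ^ 6) (y 9 * e ^ 7) = 0 := by
    have h1 := scaleP r x1 (x2 * e - 2) (y 3 * e) (y 4 * e ^ 2) (y 5 * e ^ 3) (y 6 * e ^ 4)
      (y 7 * e ^ 5) (y 8 * e ^ 6) (y 9 * e ^ 7)
    rw [← w1, ← w2, ← w3, ← w4, ← w5, ← w6, ← w7, ← w8, ← w9, hP] at h1
    rcases mul_eq_zero.1 h1.symm with h2 | h2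
    · exact absurd h2 (by positivity)
    · exact h2
  rw [exp1] at hP'
  set p := (x1 ^ 2) ^ 4 - 72 * (x1 ^ 2) ^ 3 + 1512 * (x1 ^ 2) ^ 2 - 10080 * x1 ^ 2 + 15120 with hp
  have hR := hR1 x1 x2 (y 3) (y 4) (y 5) (y 6) (y 7) (y 8) (y 9) e (by linarith) (by linarith)
    (hyb 3 (by norm_num) (by norm_num)) (hyb 4 (by norm_num) (by norm_num))
    (hyb 5 (by norm_num) (by norm_num)) (hyb 6 (by norm_num) (by norm_num))
    (hyb 7 (by norm_num) (by norm_num)) (hyb 8 (by norm_num) (by norm_num))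
    (hyb 9 (by norm_num) (by norm_num)) he0.le he1
  have hmain : |x1| * |p| ≤ 362880 * (e * C1) := by
    have h1 : x1 * p = -(362880 * (e * R1 x1 x2 (y 3) (y 4) (y 5) (y 6) (y 7) (y 8) (y 9) e)) := by
      linarith
    rw [← abs_mul, h1, abs_neg, abs_mul, abs_mul, abs_of_pos he0,
      abs_of_pos (by norm_num : (0 : ℝ) < 362880)]
    have h2 : e * |R1 x1 x2 (y 3) (y 4) (y 5) (y 6) (y 7) (y 8) (y 9) e| ≤ e * C1 :=
      mul_le_mul_of_nonneg_left hR he0.le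
    linarith
  have hy : u 1 ^ 2 / m = x1 ^ 2 := by
    rw [hx1, ← hrr, he]
    field_simp
  constructor
  · intro h2
    have h3 : 2 ≤ x1 ^ 2 := by
      rw [← hy, le_div_iff₀ hm0]
      exact h2
    have h4 : 1 ≤ |x1| := by
      by_contra h
      push Not at h
      have : x1 ^ 2 < 1 := by
        rw [← sq_abs]
        exact pow_lt_one₀ (abs_nonneg x1) h (by norm_num)
      linarith
    have h5 : |p| ≤ 362880 * (e * C1) := by
      calc |p| = 1 * |p| := (one_mul _).symm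
        _ ≤ |x1| * |p| := mul_le_mul_of_nonneg_right h4 (abs_nonneg p)
        _ ≤ _ := hmain
    rw [hy]
    have h6 : q9 (x1 ^ 2) - 1 = - p / 15120 := by
      rw [q9, hp]
      ring
    rw [h6, abs_div, abs_neg, abs_of_pos (by norm_num : (0 : ℝ) < 15120)]
    calc |p| / 15120 ≤ 362880 * (e * C1) / 15120 := by linarith
      _ = (24 * C1) / r := by rw [he]; field_simp; norm_num
      _ ≤ (24 * C1 + 288 * L ^ 3) / r := by
        apply div_le_div_of_nonneg_right _ hr0.le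
        linarith
  · intro h2
    have h3 : x1 ^ 2 < 2 := by
      rw [← hy, div_lt_iff₀ hm0]
      exact h2
    have h30 : 0 ≤ x1 ^ 2 := sq_nonneg x1
    have h4 : 448 ≤ p := pz _ h30 h3
    have h5 : |x1| ≤ 810 * C1 * e := by
      have h6 : |x1| * 448 ≤ |x1| * |p| :=
        mul_le_mul_of_nonneg_left (h4.trans (le_abs_self p)) (abs_nonneg _)
      have e0 : 810 * C1 * e = 810 * (e * C1) := by ring
      rw [e0]
      linarith
    have h7 : |u 1| ≤ 810 * C1 := by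
      have h8 : u 1 = x1 * r := by
        rw [hx1, mul_assoc, mul_comm e r, hre, mul_one]
      rw [h8, abs_mul, abs_of_pos hr0]
      calc |x1| * r ≤ 810 * C1 * e * r := mul_le_mul_of_nonneg_right h5 hr0.le
        _ = 810 * C1 * (r * e) := by ring
        _ = 810 * C1 := by rw [hre, mul_one]
    have hH : r ^ 8 / 48 ≤ H9 (wk u m 1) (wk u m 2) (wk u m 3) (wk u m 4) (wk u m 5) (wk u m 6)
        (wk u m 7) (wk u m 8) := by
      rw [w1, w2, w3, w4, w5, w6, w7, w8, scaleH, hx1, exp2]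
      have h9 := hR2 (u 1) x2 (y 3) (y 4) (y 5) (y 6) (y 7) (y 8) e (by linarith) (by linarith)
        (hyb 3 (by norm_num) (by norm_num)) (hyb 4 (by norm_num) (by norm_num))
        (hyb 5 (by norm_num) (by norm_num)) (hyb 6 (by norm_num) (by norm_num))
        (hyb 7 (by norm_num) (by norm_num)) (hyb 8 (by norm_num) (by norm_num)) he0.le he1
      have h10 := neg_le_of_abs_le h9
      have h11 : -(e * C2) ≤ e * R2 (u 1) x2 (y 3) (y 4) (y 5) (y 6) (y 7) (y 8) e := by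
        have := mul_le_mul_of_nonneg_left h10 he0.le
        linarith
      have h12 : (1 : ℝ) / 48 ≤ 1 / 24 +
          e * R2 (u 1) x2 (y 3) (y 4) (y 5) (y 6) (y 7) (y 8) e := by
        have e0 : 48 * C2 * e = 48 * (e * C2) := by ring
        rw [e0] at heC
        linarith
      calc r ^ 8 / 48 = r ^ 8 * (1 / 48) := by ring
        _ ≤ _ := mul_le_mul_of_nonneg_left h12 (by positivity)
    have hsplit := P9_eq (wk u m 1) (wk u m 2) (wk u m 3) (wk u m 4) (wk u m 5) (wk u m 6)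
      (wk u m 7) (wk u m 8) (wk u m 9)
    rw [hP] at hsplit
    have e1 : wk u m 1 = u 1 := by rw [wk, if_neg (by decide), sub_zero]
    have e3 : wk u m 3 = u 3 := by rw [wk, if_neg (by decide), sub_zero]
    have e5 : wk u m 5 = u 5 := by rw [wk, if_neg (by decide), sub_zero]
    have e7 : wk u m 7 = u 7 := by rw [wk, if_neg (by decide), sub_zero]
    have e9 : wk u m 9 = u 9 := by rw [wk, if_neg (by decide), sub_zero]
    have hw2 : |wk u m 2| ≤ L * m := by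
      rw [wk, if_pos (by decide)]
      have h9 := abs_sub (u 2) (2 * m)
      rw [abs_of_pos (by linarith : 0 < 2 * m)] at h9
      have h10 : K₀ * r ≤ K₀ * m := by
        apply mul_le_mul_of_nonneg_left _ hK₀.le
        rw [← hrr, sq]
        exact le_mul_of_one_le_left hr0.le hr1
      rw [hL]
      linarith
    have hT := boundT L m (wk u m 2) (u 3) (wk u m 4) (u 5) (wk u m 6) (u 7) (u 9)
      (by rw [hL]; linarith) hm1 hw2 (huk 3 (by norm_num) (by norm_num))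
      (hwb 4 (by norm_num) (by norm_num)) (hwb 6 (by norm_num) (by norm_num))
      (huk 7 (by norm_num) (by norm_num)) (huk 9 (by norm_num) (by norm_num))
    rw [e1, e3, e5, e7, e9] at hsplit
    rw [e1, e3, e5, e7] at hH
    set H := H9 (u 1) (wk u m 2) (u 3) (wk u m 4) (u 5) (wk u m 6) (u 7) (wk u m 8) with hHdef
    have hHpos : 0 < r ^ 8 / 48 := by positivity
    have h13 : |u 1| * H ≤ L ^ 3 * (m ^ 3 * |u 3| + m ^ 2 * |u 5| + 6 * m ^ 2) := by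
      have h14 : u 1 * H = - T9 (wk u m 2) (u 3) (wk u m 4) (u 5) (wk u m 6) (u 7) (u 9) := by
        linarith
      have h15 : |u 1| * H = |u 1 * H| := by
        rw [abs_mul, abs_of_pos (lt_of_lt_of_le hHpos hH)]
      rw [h15, h14, abs_neg]
      exact hT
    have h16 : |u 1| * (r ^ 8 / 48) ≤ |u 1| * H := mul_le_mul_of_nonneg_left hH (abs_nonneg _)
    have hr8 : r ^ 8 = m ^ 4 := by rw [← hrr]; ring
    rw [hr8] at h16
    have h17 : |u 1| * m ^ 4 ≤ 48 * L ^ 3 * (m ^ 3 * |u 3| + m ^ 2 * |u 5| + 6 * m ^ 2) := by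
      linarith
    have h18 : |u 1| ≤ 48 * L ^ 3 * (|u 3| / m + |u 5| / m ^ 2 + 6 / m ^ 2) := by
      rw [← le_div_iff₀ (by positivity)] at h17
      refine h17.trans (le_of_eq ?_)
      field_simp
    have h19 : 48 * L ^ 3 * (|u 3| / m + |u 5| / m ^ 2 + 6 / m ^ 2) ≤
        288 * L ^ 3 * (|u 3| / m + |u 5| / m ^ 2 + 1 / m ^ 2) := by
      have a1 : 0 ≤ |u 3| / m := by positivity
      have a2 : 0 ≤ |u 5| / m ^ 2 := by positivity
      have a3 : (6 : ℝ) / m ^ 2 = 6 * (1 / m ^ 2) := by ring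
      rw [a3]
      exact fin_ineq L _ _ _ hL3.le a1 a2
    refine h18.trans (h19.trans ?_)
    apply mul_le_mul_of_nonneg_right _ (by positivity)
    linarith

end

end Pool.Agent.H56.GB
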