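import Pool.Agent.H23.GB.Targets9

/-!
# Module D9: the dichotomy for radius 9
-/

set_option autoImplicit false

open Finset Polynomial
open scoped Classical Nat

namespace Pool.Agent.H56.GB

open Pool.Agent.H23.GW Pool.Agent.H23.GA Pool.Agent.H23.GB

noncomputable section

/-- the power sums, corrected -/
def wk (u : ℕ → ℝ) (m : ℝ) (k : ℕ) : ℝ := u k - if Even k then 2 * m else 0

theorem bp_rec (u : ℕ → ℝ) (m : ℝ) (n : ℕ) : (BP u (n + 1)).eval m =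
    ((n : ℝ) + 1)⁻¹ * ∑ k ∈ range (n + 1), wk u m (k + 1) * (BP u (n - k)).eval m := by
  rw [BP]
  rw [eval_mul, eval_C, eval_finsetSum]
  congr 1
  rw [← Fin.sum_univ_eq_sum_range (fun k => wk u m (k + 1) * (BP u (n - k)).eval m)]
  refine Finset.sum_congr rfl fun k _ => ?_
  rw [eval_mul]
  congr 1
  rw [wk]
  split_ifs <;> simp

/-- the value of `BP` in degree nine -/
def P9 (w1 w2 w3 w4 w5 w6 w7 w8 w9 : ℝ) : ℝ :=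
    w9 / 9 + w1 * w8 / 8 + w2 * w7 / 14 + w1 ^ 2 * w7 / 14 + w3 * w6 / 18 + w1 * w2 * w6 / 12 +
    w1 ^ 3 * w6 / 36 + w4 * w5 / 20 + w1 * w3 * w5 / 15 + w2 ^ 2 * w5 / 40 +
    w1 ^ 2 * w2 * w5 / 20 + w1 ^ 4 * w5 / 120 + w1 * w4 ^ 2 / 32 + w2 * w3 * w4 / 24 +
    w1 ^ 2 * w3 * w4 / 24 + w1 * w2 ^ 2 * w4 / 32 + w1 ^ 3 * w2 * w4 / 48 + w1 ^ 5 * w4 / 480 +
    w3 ^ 3 / 162 + w1 * w2 * w3 ^ 2 / 36 + w1 ^ 3 * w3 ^ 2 / 108 + w2 ^ 3 * w3 / 144 +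
    w1 ^ 2 * w2 ^ 2 * w3 / 48 + w1 ^ 4 * w2 * w3 / 144 + w1 ^ 6 * w3 / 2160 +
    w1 * w2 ^ 4 / 384 + w1 ^ 3 * w2 ^ 3 / 288 + w1 ^ 5 * w2 ^ 2 / 960 + w1 ^ 7 * w2 / 10080 +
    w1 ^ 9 / 362880

/-- the terms without `w1` -/
def T9 (w2 w3 w4 w5 w6 w7 w9 : ℝ) : ℝ :=
    w9 / 9 + w2 * w7 / 14 + w3 * w6 / 18 + w4 * w5 / 20 + w2 ^ 2 * w5 / 40 +
    w2 * w3 * w4 / 24 + w3 ^ 3 / 162 + w2 ^ 3 * w3 / 144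

/-- the cofactor of `w1` -/
def H9 (w1 w2 w3 w4 w5 w6 w7 w8 : ℝ) : ℝ :=
    w8 / 8 + w1 * w7 / 14 + w2 * w6 / 12 + w1 ^ 2 * w6 / 36 + w3 * w5 / 15 +
    w1 * w2 * w5 / 20 + w1 ^ 3 * w5 / 120 + w4 ^ 2 / 32 + w1 * w3 * w4 / 24 +
    w2 ^ 2 * w4 / 32 + w1 ^ 2 * w2 * w4 / 48 + w1 ^ 4 * w4 / 480 + w2 * w3 ^ 2 / 36 +
    w1 ^ 2 * w3 ^ 2 / 108 + w1 * w2 ^ 2 * w3 / 48 + w1 ^ 3 * w2 * w3 / 144 +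
    w1 ^ 5 * w3 / 2160 + w2 ^ 4 / 384 + w1 ^ 2 * w2 ^ 3 / 288 + w1 ^ 4 * w2 ^ 2 / 960 +
    w1 ^ 6 * w2 / 10080 + w1 ^ 8 / 362880

theorem P9_eq (w1 w2 w3 w4 w5 w6 w7 w8 w9 : ℝ) : P9 w1 w2 w3 w4 w5 w6 w7 w8 w9 = w1 * H9 w1 w2 w3 w4 w5 w6 w7 w8 +
    T9 w2 w3 w4 w5 w6 w7 w9 := by
  simp only [P9, H9, T9]
  ring

theorem rec9 (b w : ℕ → ℝ) (h0 : b 0 = 1) (h : ∀ n, b (n + 1) =
    ((n : ℝ) + 1)⁻¹ * ∑ k ∈ range (n + 1), w (k + 1) * b (n - k)) :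
    b 9 = P9 (w 1) (w 2) (w 3) (w 4) (w 5) (w 6) (w 7) (w 8) (w 9) := by
  have h1 : b 1 =
      w 1 := by
    have hh := h 0
    simp only [Finset.sum_range_succ, Finset.sum_range_zero] at hh
    norm_num at hh
    rw [h0] at hh
    rw [hh]
    ring
  have h2 : b 2 =
      w 2 / 2 + w 1 ^ 2 / 2 := by
    have hh := h 1
    simp only [Finset.sum_range_succ, Finset.sum_range_zero] at hh
    norm_num at hh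
    rw [h1, h0] at hh
    rw [hh]
    ring
  have h3 : b 3 =
      w 3 / 3 + w 1 * w 2 / 2 + w 1 ^ 3 / 6 := by
    have hh := h 2
    simp only [Finset.sum_range_succ, Finset.sum_range_zero] at hh
    norm_num at hh
    rw [h2, h1, h0] at hh
    rw [hh]
    ring
  have h4 : b 4 =
      w 4 / 4 + w 1 * w 3 / 3 + w 2 ^ 2 / 8 + w 1 ^ 2 * w 2 / 4 + w 1 ^ 4 / 24 := by
    have hh := h 3
    simp only [Finset.sum_range_succ, Finset.sum_range_zero] at hh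
    norm_num at hh
    rw [h3, h2, h1, h0] at hh
    rw [hh]
    ring
  have h5 : b 5 =
      w 5 / 5 + w 1 * w 4 / 4 + w 2 * w 3 / 6 + w 1 ^ 2 * w 3 / 6 + w 1 * w 2 ^ 2 / 8 +
      w 1 ^ 3 * w 2 / 12 + w 1 ^ 5 / 120 := by
    have hh := h 4
    simp only [Finset.sum_range_succ, Finset.sum_range_zero] at hh
    norm_num at hh
    rw [h4, h3, h2, h1, h0] at hh
    rw [hh]
    ring
  have h6 : b 6 =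
      w 6 / 6 + w 1 * w 5 / 5 + w 2 * w 4 / 8 + w 1 ^ 2 * w 4 / 8 + w 3 ^ 2 / 18 +
      w 1 * w 2 * w 3 / 6 + w 1 ^ 3 * w 3 / 18 + w 2 ^ 3 / 48 + w 1 ^ 2 * w 2 ^ 2 / 16 +
      w 1 ^ 4 * w 2 / 48 + w 1 ^ 6 / 720 := by
    have hh := h 5
    simp only [Finset.sum_range_succ, Finset.sum_range_zero] at hh
    norm_num at hh
    rw [h5, h4, h3, h2, h1, h0] at hh
    rw [hh]
    ring
  have h7 : b 7 =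
      w 7 / 7 + w 1 * w 6 / 6 + w 2 * w 5 / 10 + w 1 ^ 2 * w 5 / 10 + w 3 * w 4 / 12 +
      w 1 * w 2 * w 4 / 8 + w 1 ^ 3 * w 4 / 24 + w 1 * w 3 ^ 2 / 18 + w 2 ^ 2 * w 3 / 24 +
      w 1 ^ 2 * w 2 * w 3 / 12 + w 1 ^ 4 * w 3 / 72 + w 1 * w 2 ^ 3 / 48 +
      w 1 ^ 3 * w 2 ^ 2 / 48 + w 1 ^ 5 * w 2 / 240 + w 1 ^ 7 / 5040 := by
    have hh := h 6
    simp only [Finset.sum_range_succ, Finset.sum_range_zero] at hh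
    norm_num at hh
    rw [h6, h5, h4, h3, h2, h1, h0] at hh
    rw [hh]
    ring
  have h8 : b 8 =
      w 8 / 8 + w 1 * w 7 / 7 + w 2 * w 6 / 12 + w 1 ^ 2 * w 6 / 12 + w 3 * w 5 / 15 +
      w 1 * w 2 * w 5 / 10 + w 1 ^ 3 * w 5 / 30 + w 4 ^ 2 / 32 + w 1 * w 3 * w 4 / 12 +
      w 2 ^ 2 * w 4 / 32 + w 1 ^ 2 * w 2 * w 4 / 16 + w 1 ^ 4 * w 4 / 96 + w 2 * w 3 ^ 2 / 36 +
      w 1 ^ 2 * w 3 ^ 2 / 36 + w 1 * w 2 ^ 2 * w 3 / 24 + w 1 ^ 3 * w 2 * w 3 / 36 +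
      w 1 ^ 5 * w 3 / 360 + w 2 ^ 4 / 384 + w 1 ^ 2 * w 2 ^ 3 / 96 + w 1 ^ 4 * w 2 ^ 2 / 192 +
      w 1 ^ 6 * w 2 / 1440 + w 1 ^ 8 / 40320 := by
    have hh := h 7
    simp only [Finset.sum_range_succ, Finset.sum_range_zero] at hh
    norm_num at hh
    rw [h7, h6, h5, h4, h3, h2, h1, h0] at hh
    rw [hh]
    ring
  have h9 : b 9 =
      w 9 / 9 + w 1 * w 8 / 8 + w 2 * w 7 / 14 + w 1 ^ 2 * w 7 / 14 + w 3 * w 6 / 18 +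
      w 1 * w 2 * w 6 / 12 + w 1 ^ 3 * w 6 / 36 + w 4 * w 5 / 20 + w 1 * w 3 * w 5 / 15 +
      w 2 ^ 2 * w 5 / 40 + w 1 ^ 2 * w 2 * w 5 / 20 + w 1 ^ 4 * w 5 / 120 +
      w 1 * w 4 ^ 2 / 32 + w 2 * w 3 * w 4 / 24 + w 1 ^ 2 * w 3 * w 4 / 24 +
      w 1 * w 2 ^ 2 * w 4 / 32 + w 1 ^ 3 * w 2 * w 4 / 48 + w 1 ^ 5 * w 4 / 480 +
      w 3 ^ 3 / 162 + w 1 * w 2 * w 3 ^ 2 / 36 + w 1 ^ 3 * w 3 ^ 2 / 108 +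
      w 2 ^ 3 * w 3 / 144 + w 1 ^ 2 * w 2 ^ 2 * w 3 / 48 + w 1 ^ 4 * w 2 * w 3 / 144 +
      w 1 ^ 6 * w 3 / 2160 + w 1 * w 2 ^ 4 / 384 + w 1 ^ 3 * w 2 ^ 3 / 288 +
      w 1 ^ 5 * w 2 ^ 2 / 960 + w 1 ^ 7 * w 2 / 10080 + w 1 ^ 9 / 362880 := by
    have hh := h 8
    simp only [Finset.sum_range_succ, Finset.sum_range_zero] at hh
    norm_num at hh
    rw [h8, h7, h6, h5, h4, h3, h2, h1, h0] at hh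
    rw [hh]
    ring
  rw [h9, P9]

/-- the remainder of the main expansion -/
def R1 (a b y3 y4 y5 y6 y7 y8 y9 e : ℝ) : ℝ :=
    (1 / 10080) * a ^ 7 * b + (1 / 2160) * a ^ 6 * y3 + (1 / 960) * a ^ 5 * b ^ 2 * e +
    (-1 / 240) * a ^ 5 * b + (1 / 480) * a ^ 5 * y4 * e + (1 / 144) * a ^ 4 * b * y3 * e +
    (-1 / 72) * a ^ 4 * y3 + (1 / 120) * a ^ 4 * y5 * e ^ 2 +
    (1 / 288) * a ^ 3 * b ^ 3 * e ^ 2 + (-1 / 48) * a ^ 3 * b ^ 2 * e +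
    (1 / 48) * a ^ 3 * b * y4 * e ^ 2 + (1 / 24) * a ^ 3 * b + (1 / 108) * a ^ 3 * y3 ^ 2 * e +
    (-1 / 24) * a ^ 3 * y4 * e + (1 / 36) * a ^ 3 * y6 * e ^ 3 +
    (1 / 48) * a ^ 2 * b ^ 2 * y3 * e ^ 2 + (-1 / 12) * a ^ 2 * b * y3 * e +
    (1 / 20) * a ^ 2 * b * y5 * e ^ 3 + (1 / 24) * a ^ 2 * y3 * y4 * e ^ 2 +
    (1 / 12) * a ^ 2 * y3 + (-1 / 10) * a ^ 2 * y5 * e ^ 2 + (1 / 14) * a ^ 2 * y7 * e ^ 4 +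
    (1 / 384) * a * b ^ 4 * e ^ 3 + (-1 / 48) * a * b ^ 3 * e ^ 2 +
    (1 / 32) * a * b ^ 2 * y4 * e ^ 3 + (1 / 16) * a * b ^ 2 * e +
    (1 / 36) * a * b * y3 ^ 2 * e ^ 2 + (-1 / 8) * a * b * y4 * e ^ 2 +
    (1 / 12) * a * b * y6 * e ^ 4 + (-1 / 12) * a * b + (-1 / 18) * a * y3 ^ 2 * e +
    (1 / 15) * a * y3 * y5 * e ^ 3 + (1 / 32) * a * y4 ^ 2 * e ^ 3 + (1 / 8) * a * y4 * e +
    (-1 / 6) * a * y6 * e ^ 3 + (1 / 8) * a * y8 * e ^ 5 + (1 / 144) * b ^ 3 * y3 * e ^ 3 +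
    (-1 / 24) * b ^ 2 * y3 * e ^ 2 + (1 / 40) * b ^ 2 * y5 * e ^ 4 +
    (1 / 24) * b * y3 * y4 * e ^ 3 + (1 / 12) * b * y3 * e + (-1 / 10) * b * y5 * e ^ 3 +
    (1 / 14) * b * y7 * e ^ 5 + (1 / 162) * y3 ^ 3 * e ^ 2 + (-1 / 12) * y3 * y4 * e ^ 2 +
    (1 / 18) * y3 * y6 * e ^ 4 + (-1 / 18) * y3 + (1 / 20) * y4 * y5 * e ^ 4 +
    (1 / 10) * y5 * e ^ 2 + (-1 / 7) * y7 * e ^ 4 + (1 / 9) * y9 * e ^ 6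

/-- the remainder of the expansion of the cofactor -/
def R2 (a b y3 y4 y5 y6 y7 y8 e : ℝ) : ℝ :=
    (1 / 362880) * a ^ 8 * e ^ 7 + (1 / 10080) * a ^ 6 * b * e ^ 6 +
    (-1 / 5040) * a ^ 6 * e ^ 5 + (1 / 2160) * a ^ 5 * y3 * e ^ 5 +
    (1 / 960) * a ^ 4 * b ^ 2 * e ^ 5 + (-1 / 240) * a ^ 4 * b * e ^ 4 +
    (1 / 480) * a ^ 4 * y4 * e ^ 5 + (1 / 240) * a ^ 4 * e ^ 3 +
    (1 / 144) * a ^ 3 * b * y3 * e ^ 4 + (-1 / 72) * a ^ 3 * y3 * e ^ 3 +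
    (1 / 120) * a ^ 3 * y5 * e ^ 5 + (1 / 288) * a ^ 2 * b ^ 3 * e ^ 4 +
    (-1 / 48) * a ^ 2 * b ^ 2 * e ^ 3 + (1 / 48) * a ^ 2 * b * y4 * e ^ 4 +
    (1 / 24) * a ^ 2 * b * e ^ 2 + (1 / 108) * a ^ 2 * y3 ^ 2 * e ^ 3 +
    (-1 / 24) * a ^ 2 * y4 * e ^ 3 + (1 / 36) * a ^ 2 * y6 * e ^ 5 + (-1 / 36) * a ^ 2 * e +
    (1 / 48) * a * b ^ 2 * y3 * e ^ 3 + (-1 / 12) * a * b * y3 * e ^ 2 +
    (1 / 20) * a * b * y5 * e ^ 4 + (1 / 24) * a * y3 * y4 * e ^ 3 + (1 / 12) * a * y3 * e +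
    (-1 / 10) * a * y5 * e ^ 3 + (1 / 14) * a * y7 * e ^ 5 + (1 / 384) * b ^ 4 * e ^ 3 +
    (-1 / 48) * b ^ 3 * e ^ 2 + (1 / 32) * b ^ 2 * y4 * e ^ 3 + (1 / 16) * b ^ 2 * e +
    (1 / 36) * b * y3 ^ 2 * e ^ 2 + (-1 / 8) * b * y4 * e ^ 2 + (1 / 12) * b * y6 * e ^ 4 +
    (-1 / 12) * b + (-1 / 18) * y3 ^ 2 * e + (1 / 15) * y3 * y5 * e ^ 3 +
    (1 / 32) * y4 ^ 2 * e ^ 3 + (1 / 8) * y4 * e + (-1 / 6) * y6 * e ^ 3 + (1 / 8) * y8 * e ^ 5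

theorem exp1 (a b y3 y4 y5 y6 y7 y8 y9 e : ℝ) :
    P9 a (b * e - 2) (y3 * e) (y4 * e ^ 2) (y5 * e ^ 3) (y6 * e ^ 4) (y7 * e ^ 5) (y8 * e ^ 6)
      (y9 * e ^ 7) =
    a * ((a ^ 2) ^ 4 - 72 * (a ^ 2) ^ 3 + 1512 * (a ^ 2) ^ 2 - 10080 * a ^ 2 + 15120) / 362880 +
      e * R1 a b y3 y4 y5 y6 y7 y8 y9 e := by
  simp only [P9, R1]
  ring

theorem exp2 (a b y3 y4 y5 y6 y7 y8 e : ℝ) :
    H9 (a * e) (b * e - 2) (y3 * e) (y4 * e ^ 2) (y5 * e ^ 3) (y6 * e ^ 4) (y7 * e ^ 5)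
      (y8 * e ^ 6) = 1 / 24 + e * R2 a b y3 y4 y5 y6 y7 y8 e := by
  simp only [H9, R2]
  ring

theorem scaleP (r w1 w2 w3 w4 w5 w6 w7 w8 w9 : ℝ) :
    P9 (r * w1) (r ^ 2 * w2) (r ^ 3 * w3) (r ^ 4 * w4) (r ^ 5 * w5) (r ^ 6 * w6) (r ^ 7 * w7)
      (r ^ 8 * w8) (r ^ 9 * w9) = r ^ 9 * P9 w1 w2 w3 w4 w5 w6 w7 w8 w9 := by
  simp only [P9]
  ring

theorem scaleH (r w1 w2 w3 w4 w5 w6 w7 w8 : ℝ) :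
    H9 (r * w1) (r ^ 2 * w2) (r ^ 3 * w3) (r ^ 4 * w4) (r ^ 5 * w5) (r ^ 6 * w6) (r ^ 7 * w7)
      (r ^ 8 * w8) = r ^ 8 * H9 w1 w2 w3 w4 w5 w6 w7 w8 := by
  simp only [H9]
  ring


end

end Pool.Agent.H56.GB
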